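import Mathlib
import Pool.Agent.R199.LineG.Card

set_option autoImplicit false

namespace Pool.Agent.Results.MP_4d6a7f_co.DegreeFiltration

open Cardinal

universe u

/-- Let `G` be isomorphic to its line graph and `κ` an infinite cardinal.  The subgraph induced by
the vertices of degree less than `κ` is isomorphic to its line graph, and two such vertices joined
by a path of `G` are joined by a path all of whose vertices have degree less than `κ`. -/
theorem result {V : Type u} (G : SimpleGraph V) (h : Nonempty (G ≃g G.lineGraph))
    (κ : Cardinal.{u}) (hκ : ℵ₀ ≤ κ) :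
    Nonempty (G.induce {x | #(G.neighborSet x) < κ} ≃g
      (G.induce {x | #(G.neighborSet x) < κ}).lineGraph) ∧
    ∀ x y : {x | #(G.neighborSet x) < κ}, G.Reachable x.1 y.1 →
      (G.induce {x | #(G.neighborSet x) < κ}).Reachable x y := by
  obtain ⟨φ⟩ := h
  exact R199.LineG.filtration φ κ hκ

end Pool.Agent.Results.MP_4d6a7f_co.DegreeFiltration
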