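import Mathlib
import Pool.Agent.R199.LineG.Exist

set_option autoImplicit false

namespace Pool.Agent.Results.MP_4d6a7f_co.EveryCardinal

open Cardinal

universe u

/-- For every infinite cardinal `κ` there is a connected graph `G` with `κ` vertices which is
isomorphic to its line graph, in which every vertex has degree `κ`, and which contains a complete
subgraph with `κ` vertices. -/
theorem result (κ : Cardinal.{u}) (hκ : ℵ₀ ≤ κ) : ∃ (V : Type u) (G : SimpleGraph V),
    #V = κ ∧ G.Connected ∧ Nonempty (G ≃g G.lineGraph) ∧ (∀ x, #(G.neighborSet x) = κ) ∧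
    ∃ S : Set V, #S = κ ∧ G.IsClique S :=
  R199.LineG.exist κ hκ

end Pool.Agent.Results.MP_4d6a7f_co.EveryCardinal
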