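import Mathlib
import Pool.Agent.R199.LineG.Fin

set_option autoImplicit false

namespace Pool.Agent.Results.MP_4d6a7f_co.FiniteDegreeRay

universe u

/-- Let `G` be a connected graph with an isomorphism `φ` onto its line graph, with a vertex of
infinite degree and a vertex of finite degree.  Then the vertices of finite degree are exactly the
vertices of a ray `r 0, r 1, r 2, ...`; `φ` maps `r n` to the edge `r n, r (n + 1)`; the vertex
`r (n + 1)` has no neighbours except `r n` and `r (n + 2)`, and `r 1` is the only neighbour of
`r 0` of finite degree. -/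
theorem result {V : Type u} (G : SimpleGraph V) (φ : G ≃g G.lineGraph) (hconn : G.Connected)
    (hI : ∃ x, (G.neighborSet x).Infinite) (hF : ∃ x, (G.neighborSet x).Finite) :
    ∃ r : ℕ → V, Function.Injective r ∧ Set.range r = {x | (G.neighborSet x).Finite} ∧
      (∀ n, (φ (r n)).1 = s(r n, r (n + 1))) ∧
      (∀ n, G.neighborSet (r (n + 1)) = {r n, r (n + 2)}) ∧
      G.neighborSet (r 0) ∩ {x | (G.neighborSet x).Finite} = {r 1} :=
  R199.LineG.ray (R199.LineG.LG.ofIso φ) hconn hI hF

end Pool.Agent.Results.MP_4d6a7f_co.FiniteDegreeRay
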